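import Pool.Agent.Helper53.SL.St

/-!
# MP_9062f4_nt, project SL, module RT: the root of `FN n` outside of the unit disc
-/

set_option autoImplicit false

open Polynomial Filter Topology Set
open Pool.Agent.Helper53.SL

noncomputable section

namespace Pool.Agent.Helper54.SL

theorem th_lo {θ : ℝ} (h : θ ^ 3 - θ - 1 = 0) : 13 / 10 < θ := by
  by_contra hc
  push Not at hc
  have h1 : 0 < θ ^ 2 + 13 / 10 * θ + 69 / 100 := by nlinarith [sq_nonneg (θ + 13 / 20)]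
  have h2 : 0 ≤ (13 / 10 - θ) * (θ ^ 2 + 13 / 10 * θ + 69 / 100) := mul_nonneg (by linarith) h1.le
  nlinarith

theorem th_hi {θ : ℝ} (h : θ ^ 3 - θ - 1 = 0) : θ < 14 / 10 := by
  by_contra hc
  push Not at hc
  have h1 : 0 < θ ^ 2 + 14 / 10 * θ + 96 / 100 := by nlinarith [sq_nonneg (θ + 14 / 20)]
  have h2 : 0 ≤ (θ - 14 / 10) * (θ ^ 2 + 14 / 10 * θ + 96 / 100) := mul_nonneg (by linarith) h1.le
  nlinarith

theorem fn_aeval {R : Type*} [CommRing R] [Algebra ℤ R] (x : R) (n : ℕ) :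
    aeval x (FN n) = x ^ n * (x ^ 3 - x - 1) + (x ^ 3 + x ^ 2 - 1) := by
  simp [FN]

theorem fn_der (x : ℝ) (n : ℕ) : aeval x (derivative (FN n)) =
    n * x ^ (n - 1) * (x ^ 3 - x - 1) + x ^ n * (3 * x ^ 2 - 1) + (3 * x ^ 2 + 2 * x) := by
  simp only [FN, derivative_add, derivative_sub, derivative_mul, derivative_X_pow, derivative_one, derivative_X,
    map_add, map_sub, map_mul, map_pow, aeval_X, map_one, map_zero, aeval_C, map_natCast]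
  push_cast
  ring

/-- the quadratic factor and its reciprocal -/
theorem quad_lt {θ : ℝ} (h1 : 13 / 10 < θ) (h2 : θ < 14 / 10) (z : ℂ) (hz : 1 < ‖z‖) :
    ‖1 + θ * z + ((θ ^ 2 - 1 : ℝ) : ℂ) * z ^ 2‖ < ‖z ^ 2 + θ * z + ((θ ^ 2 - 1 : ℝ) : ℂ)‖ := by
  have hr : 1 < z.re ^ 2 + z.im ^ 2 := by
    have e : ‖z‖ ^ 2 = z.re ^ 2 + z.im ^ 2 := by
      rw [← Complex.normSq_eq_norm_sq, Complex.normSq_apply]; ring
    nlinarith
  refine lt_of_pow_lt_pow_left₀ 2 (norm_nonneg _) ?_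
  rw [← Complex.normSq_eq_norm_sq, ← Complex.normSq_eq_norm_sq, Complex.normSq_apply, Complex.normSq_apply]
  have a1 : (1 + (θ : ℂ) * z + ((θ ^ 2 - 1 : ℝ) : ℂ) * z ^ 2).re =
      1 + θ * z.re + (θ ^ 2 - 1) * (z.re ^ 2 - z.im ^ 2) := by
    simp only [Complex.add_re, Complex.one_re, Complex.mul_re, Complex.ofReal_re, Complex.ofReal_im, pow_two]
    ring
  have a2 : (1 + (θ : ℂ) * z + ((θ ^ 2 - 1 : ℝ) : ℂ) * z ^ 2).im =
      θ * z.im + (θ ^ 2 - 1) * (2 * (z.re * z.im)) := by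
    simp only [Complex.add_im, Complex.one_im, Complex.mul_re, Complex.mul_im, Complex.ofReal_re, Complex.ofReal_im, pow_two]
    ring
  have b1 : (z ^ 2 + (θ : ℂ) * z + ((θ ^ 2 - 1 : ℝ) : ℂ)).re =
      (z.re ^ 2 - z.im ^ 2) + θ * z.re + (θ ^ 2 - 1) := by
    simp only [Complex.add_re, Complex.mul_re, Complex.ofReal_re, Complex.ofReal_im, pow_two]
    ring
  have b2 : (z ^ 2 + (θ : ℂ) * z + ((θ ^ 2 - 1 : ℝ) : ℂ)).im = 2 * (z.re * z.im) + θ * z.im := by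
    simp only [Complex.add_im, Complex.mul_im, Complex.mul_re, Complex.ofReal_re, Complex.ofReal_im, pow_two]
    ring
  rw [a1, a2, b1, b2]
  generalize z.re = x at *
  generalize z.im = y at *
  set s : ℝ := θ ^ 2 - 1 with hs
  set r : ℝ := x ^ 2 + y ^ 2 with hr'
  have hs1 : s < 1 := by rw [hs]; nlinarith
  have hs2 : θ - 1 < s := by rw [hs]; nlinarith
  have hx : -(r + 1) ≤ 2 * x := by rw [hr']; nlinarith [sq_nonneg (x + 1), sq_nonneg y]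
  have key : 0 < (r - 1) * (1 - s) * ((r + 1) * (1 + s) + 2 * θ * x) := by
    have k1 : 0 < r - 1 := by linarith
    have k2 : 0 < 1 - s := by linarith
    have k3 : 0 < (r + 1) * (1 + s) + 2 * θ * x := by
      have h3 : 0 ≤ θ * (2 * x + (r + 1)) := mul_nonneg (by linarith) (by linarith)
      have h4 : 0 < (r + 1) * (1 + s - θ) := mul_pos (by linarith) (by linarith)
      nlinarith
    positivity
  have e : ((x ^ 2 - y ^ 2) + θ * x + s) * ((x ^ 2 - y ^ 2) + θ * x + s)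
      + (2 * (x * y) + θ * y) * (2 * (x * y) + θ * y)
      - ((1 + θ * x + s * (x ^ 2 - y ^ 2)) * (1 + θ * x + s * (x ^ 2 - y ^ 2))
      + (θ * y + s * (2 * (x * y))) * (θ * y + s * (2 * (x * y)))) =
      (r - 1) * (1 - s) * ((r + 1) * (1 + s) + 2 * θ * x) := by
    rw [hr']; ring
  linarith

/-- (a): a root outside of the unit disc satisfies `|z|^(2n) |z - θ|² ≤ |z - θ|² + (|z|² - 1) (θ² - 1)` -/
theorem root_ineq {θ : ℝ} (hθ : θ ^ 3 - θ - 1 = 0) (n : ℕ) (z : ℂ) (hz : 1 < ‖z‖)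
    (h0 : z ^ n * (z ^ 3 - z - 1) + (z ^ 3 + z ^ 2 - 1) = 0) :
    (‖z‖ ^ 2) ^ n * ‖z - θ‖ ^ 2 ≤ ‖z - θ‖ ^ 2 + (‖z‖ ^ 2 - 1) * (θ ^ 2 - 1) := by
  have h1 := th_lo hθ
  have h2 := th_hi hθ
  have hq := quad_lt h1 h2 z hz
  have hθc : (θ : ℂ) ^ 3 - θ - 1 = 0 := by exact_mod_cast hθ
  have eP : z ^ 3 - z - 1 = (z - θ) * (z ^ 2 + θ * z + ((θ ^ 2 - 1 : ℝ) : ℂ)) := by
    push_cast
    linear_combination (1 : ℂ) * hθc
  have eQ : -(z ^ 3 + z ^ 2 - 1) = (1 - θ * z) * (1 + θ * z + ((θ ^ 2 - 1 : ℝ) : ℂ) * z ^ 2) := by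
    push_cast
    linear_combination (z ^ 3 : ℂ) * hθc
  have e1 : z ^ n * (z ^ 3 - z - 1) = -(z ^ 3 + z ^ 2 - 1) := by linear_combination h0
  rw [eP, eQ] at e1
  have e2 := congrArg norm e1
  rw [norm_mul, norm_mul, norm_mul, norm_pow] at e2
  set A : ℝ := ‖z ^ 2 + θ * z + ((θ ^ 2 - 1 : ℝ) : ℂ)‖ with hA
  set B : ℝ := ‖1 + θ * z + ((θ ^ 2 - 1 : ℝ) : ℂ) * z ^ 2‖ with hB
  have hA0 : 0 < A := lt_of_le_of_lt (norm_nonneg _) hq
  have e3 : ‖z‖ ^ n * ‖z - θ‖ ≤ ‖1 - θ * z‖ := by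
    refine le_of_mul_le_mul_right ?_ hA0
    calc ‖z‖ ^ n * ‖z - θ‖ * A = ‖1 - θ * z‖ * B := by rw [← e2]; ring
      _ ≤ ‖1 - θ * z‖ * A := mul_le_mul_of_nonneg_left hq.le (norm_nonneg _)
  have e4 : ‖1 - θ * z‖ ^ 2 = ‖z - θ‖ ^ 2 + (‖z‖ ^ 2 - 1) * (θ ^ 2 - 1) := by
    rw [← Complex.normSq_eq_norm_sq, ← Complex.normSq_eq_norm_sq, ← Complex.normSq_eq_norm_sq,
      Complex.normSq_apply, Complex.normSq_apply, Complex.normSq_apply]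
    simp only [Complex.sub_re, Complex.sub_im, Complex.one_re, Complex.one_im, Complex.re_ofReal_mul,
      Complex.im_ofReal_mul, Complex.ofReal_re, Complex.ofReal_im]
    ring
  rw [← e4]
  calc (‖z‖ ^ 2) ^ n * ‖z - θ‖ ^ 2 = (‖z‖ ^ n * ‖z - θ‖) ^ 2 := by rw [mul_pow, ← pow_mul, ← pow_mul, mul_comm 2 n]
    _ ≤ ‖1 - θ * z‖ ^ 2 := pow_le_pow_left₀ (by positivity) e3 2

/-- (a): for `n > 100` all roots outside of the unit disc are in the disc of radius `1/10` around `θ` -/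
theorem root_near {θ : ℝ} (hθ : θ ^ 3 - θ - 1 = 0) (n : ℕ) (hn : 100 < n) (z : ℂ) (hz : 1 < ‖z‖)
    (h0 : z ^ n * (z ^ 3 - z - 1) + (z ^ 3 + z ^ 2 - 1) = 0) : ‖z - θ‖ < 1 / 10 := by
  by_contra hc
  push Not at hc
  have h1 := th_lo hθ
  have h2 := th_hi hθ
  have h := root_ineq hθ n z hz h0
  set r : ℝ := ‖z‖ ^ 2 with hr
  have hr1 : 0 < r - 1 := by rw [hr]; nlinarith
  have hb : 1 + n * (r - 1) ≤ r ^ n := by
    have := one_add_mul_le_pow (a := r - 1) (by linarith) n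
    have e : (1 + (r - 1)) ^ n = r ^ n := by congr 1; ring
    rw [e] at this
    exact this
  have hd : (1 / 10 : ℝ) ^ 2 ≤ ‖z - θ‖ ^ 2 := pow_le_pow_left₀ (by norm_num) hc 2
  have hn' : (101 : ℝ) ≤ n := by exact_mod_cast hn
  have h3 : (1 + n * (r - 1)) * ‖z - θ‖ ^ 2 ≤ ‖z - θ‖ ^ 2 + (r - 1) * (θ ^ 2 - 1) :=
    (mul_le_mul_of_nonneg_right hb (by positivity)).trans h
  have h4 : (n : ℝ) * ‖z - θ‖ ^ 2 ≤ θ ^ 2 - 1 := by
    refine le_of_mul_le_mul_left ?_ hr1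
    linarith
  have h5 : (101 : ℝ) * (1 / 10) ^ 2 ≤ n * ‖z - θ‖ ^ 2 := mul_le_mul hn' hd (by norm_num) (by positivity)
  nlinarith

theorem pow_sub_le (w v : ℂ) (r : ℝ) (hw : ‖w‖ ≤ r) (hv : ‖v‖ ≤ r) (j : ℕ) :
    ‖w ^ (j + 1) - v ^ (j + 1)‖ ≤ (j + 1) * r ^ j * ‖w - v‖ := by
  have hr : 0 ≤ r := (norm_nonneg _).trans hw
  induction j with
  | zero => simp
  | succ j ih =>
    have e : w ^ (j + 1 + 1) - v ^ (j + 1 + 1) = w * (w ^ (j + 1) - v ^ (j + 1)) + v ^ (j + 1) * (w - v) := by ring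
    rw [e]
    refine (norm_add_le _ _).trans ?_
    rw [norm_mul, norm_mul, norm_pow]
    have h1 : ‖w‖ * ‖w ^ (j + 1) - v ^ (j + 1)‖ ≤ r * ((j + 1) * r ^ j * ‖w - v‖) :=
      mul_le_mul hw ih (norm_nonneg _) hr
    have h2 : ‖v‖ ^ (j + 1) * ‖w - v‖ ≤ r ^ (j + 1) * ‖w - v‖ :=
      mul_le_mul_of_nonneg_right (pow_le_pow_left₀ (norm_nonneg _) hv _) (norm_nonneg _)
    calc ‖w‖ * ‖w ^ (j + 1) - v ^ (j + 1)‖ + ‖v‖ ^ (j + 1) * ‖w - v‖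
        ≤ r * ((j + 1) * r ^ j * ‖w - v‖) + r ^ (j + 1) * ‖w - v‖ := add_le_add h1 h2
      _ = ((j + 1 : ℕ) + 1) * r ^ (j + 1) * ‖w - v‖ := by push_cast; ring

/-- (b): two different roots in the disc -/
theorem two_roots {θ : ℝ} (hθ : θ ^ 3 - θ - 1 = 0) (m : ℕ) (hm : ((m : ℝ) + 4) * (5 / 6 : ℝ) ^ m < 1) (z τ : ℂ)
    (hz : ‖z - θ‖ < 1 / 10) (hτ : ‖τ - θ‖ < 1 / 10)
    (h0 : z ^ (m + 4) * (z ^ 3 - z - 1) + (z ^ 3 + z ^ 2 - 1) = 0)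
    (h1 : τ ^ (m + 4) * (τ ^ 3 - τ - 1) + (τ ^ 3 + τ ^ 2 - 1) = 0) : z = τ := by
  have t1 := th_lo hθ
  have t2 := th_hi hθ
  have hθn : ‖(θ : ℂ)‖ = θ := by rw [Complex.norm_real, Real.norm_eq_abs, abs_of_pos (by linarith)]
  have lo : ∀ x : ℂ, ‖x - θ‖ < 1 / 10 → 6 / 5 ≤ ‖x‖ := by
    intro x hx
    have := norm_sub_norm_le (θ : ℂ) (θ - x)
    rw [sub_sub_cancel, hθn, norm_sub_rev] at this
    linarith
  have z1 := lo z hz
  have τ1 := lo τ hτ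
  have z0 : z ≠ 0 := by
    intro h; rw [h, norm_zero] at z1; norm_num at z1
  have τ0 : τ ≠ 0 := by
    intro h; rw [h, norm_zero] at τ1; norm_num at τ1
  by_contra hne
  have hd : 0 < ‖z - τ‖ := norm_pos_iff.2 (sub_ne_zero.2 hne)
  -- the inverses
  set w := z⁻¹ with hw
  set v := τ⁻¹ with hv
  have wn : ‖w‖ ≤ 5 / 6 := by
    rw [hw, norm_inv]
    calc ‖z‖⁻¹ ≤ (6 / 5 : ℝ)⁻¹ := inv_anti₀ (by norm_num) z1
      _ = 5 / 6 := by norm_num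
  have vn : ‖v‖ ≤ 5 / 6 := by
    rw [hv, norm_inv]
    calc ‖τ‖⁻¹ ≤ (6 / 5 : ℝ)⁻¹ := inv_anti₀ (by norm_num) τ1
      _ = 5 / 6 := by norm_num
  have hwv : ‖w - v‖ ≤ ‖z - τ‖ := by
    have e : w - v = w * v * (τ - z) := by
      rw [hw, hv]; field_simp
    rw [e, norm_mul, norm_mul, norm_sub_rev τ z]
    have h2 : ‖w‖ * ‖v‖ ≤ 1 := by nlinarith [norm_nonneg w, norm_nonneg v]
    calc ‖w‖ * ‖v‖ * ‖z - τ‖ ≤ 1 * ‖z - τ‖ := mul_le_mul_of_nonneg_right h2 (norm_nonneg _)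
      _ = ‖z - τ‖ := one_mul _
  have hP : ∀ x : ℂ, x ≠ 0 → x ^ (m + 4) * (x ^ 3 - x - 1) + (x ^ 3 + x ^ 2 - 1) = 0 →
      x ^ 3 - x - 1 = (x⁻¹) ^ (m + 3 + 1) - (x⁻¹) ^ (m + 1 + 1) - (x⁻¹) ^ (m + 1) := by
    intro x hx h
    have hx4 : x ^ (m + 4) ≠ 0 := pow_ne_zero _ hx
    refine mul_left_cancel₀ hx4 ?_
    have e1 : x ^ (m + 4) * (x⁻¹ ^ (m + 3 + 1) - x⁻¹ ^ (m + 1 + 1) - x⁻¹ ^ (m + 1)) = 1 - x ^ 2 - x ^ 3 := by
      have i1 : x ^ (m + 1) * x⁻¹ ^ (m + 1) = 1 := by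
        rw [← mul_pow, mul_inv_cancel₀ hx, one_pow]
      have i2 : x * x⁻¹ = 1 := mul_inv_cancel₀ hx
      have e2 : x ^ (m + 4) * (x⁻¹ ^ (m + 3 + 1) - x⁻¹ ^ (m + 1 + 1) - x⁻¹ ^ (m + 1)) =
        (x ^ (m + 1) * x⁻¹ ^ (m + 1)) * ((x * x⁻¹) ^ 3 - x ^ 2 * (x * x⁻¹) - x ^ 3) := by ring
      rw [e2, i1, i2]; ring
    rw [e1]
    linear_combination h
  have e5 : (z - τ) * (z ^ 2 + z * τ + τ ^ 2 - 1) =
      (w ^ (m + 3 + 1) - v ^ (m + 3 + 1)) - (w ^ (m + 1 + 1) - v ^ (m + 1 + 1)) - (w ^ (m + 1) - v ^ (m + 1)) := by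
    have a := hP z z0 h0
    have b := hP τ τ0 h1
    rw [← hw] at a
    rw [← hv] at b
    linear_combination a - b
  have b1 := pow_sub_le w v (5 / 6) wn vn (m + 3)
  have b2 := pow_sub_le w v (5 / 6) wn vn (m + 1)
  have b3 := pow_sub_le w v (5 / 6) wn vn m
  have p0 : 0 ≤ (5 / 6 : ℝ) ^ m := by positivity
  have c1 : (5 / 6 : ℝ) ^ (m + 3) ≤ (5 / 6) ^ m := pow_le_pow_of_le_one (by norm_num) (by norm_num) (by omega)
  have c2 : (5 / 6 : ℝ) ^ (m + 1) ≤ (5 / 6) ^ m := pow_le_pow_of_le_one (by norm_num) (by norm_num) (by omega)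
  have m0 : (0 : ℝ) ≤ m := Nat.cast_nonneg m
  have hD : 0 ≤ ‖w - v‖ := norm_nonneg _
  have B : ∀ (k : ℝ) (q : ℝ), 0 ≤ k → k ≤ (m : ℝ) + 4 → 0 ≤ q → q ≤ (5 / 6 : ℝ) ^ m →
      k * q * ‖w - v‖ ≤ ‖z - τ‖ := by
    intro k q hk hk' hq hq'
    have s1 : k * q ≤ ((m : ℝ) + 4) * (5 / 6 : ℝ) ^ m := mul_le_mul hk' hq' hq (by linarith)
    have s2 : k * q ≤ 1 := by linarith
    calc k * q * ‖w - v‖ ≤ 1 * ‖w - v‖ := mul_le_mul_of_nonneg_right s2 hD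
      _ ≤ ‖z - τ‖ := by rw [one_mul]; exact hwv
  have d1 : ‖w ^ (m + 3 + 1) - v ^ (m + 3 + 1)‖ ≤ ‖z - τ‖ :=
    b1.trans (B _ _ (by positivity) (by push_cast; linarith) (by positivity) c1)
  have d2 : ‖w ^ (m + 1 + 1) - v ^ (m + 1 + 1)‖ ≤ ‖z - τ‖ :=
    b2.trans (B _ _ (by positivity) (by push_cast; linarith) (by positivity) c2)
  have d3 : ‖w ^ (m + 1) - v ^ (m + 1)‖ ≤ ‖z - τ‖ :=
    b3.trans (B _ _ (by positivity) (by linarith) p0 le_rfl)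
  have e6 : ‖z - τ‖ * ‖z ^ 2 + z * τ + τ ^ 2 - 1‖ ≤ 3 * ‖z - τ‖ := by
    rw [← norm_mul, e5]
    refine (norm_sub_le _ _).trans ?_
    have := norm_sub_le (w ^ (m + 3 + 1) - v ^ (m + 3 + 1)) (w ^ (m + 1 + 1) - v ^ (m + 1 + 1))
    linarith
  have e7 : ‖z ^ 2 + z * τ + τ ^ 2 - 1‖ ≤ 3 := by
    refine le_of_mul_le_mul_left ?_ hd
    linarith
  -- the lower bound
  have e8 : ((3 * θ ^ 2 - 1 : ℝ) : ℂ) = (z ^ 2 + z * τ + τ ^ 2 - 1)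
      - ((z - θ) * (z - θ) + (z - θ) * (τ - θ) + (τ - θ) * (τ - θ) + (3 * θ : ℝ) * (z - θ) + (3 * θ : ℝ) * (τ - θ)) := by
    push_cast; ring
  have e9 : 3 * θ ^ 2 - 1 ≤ ‖z ^ 2 + z * τ + τ ^ 2 - 1‖ + (3 * (1 / 10) ^ 2 + 2 * (3 * θ * (1 / 10))) := by
    have h3 : ‖((3 * θ ^ 2 - 1 : ℝ) : ℂ)‖ = 3 * θ ^ 2 - 1 := by
      rw [Complex.norm_real, Real.norm_eq_abs, abs_of_pos (by nlinarith)]
    rw [← h3, e8]
    refine (norm_sub_le _ _).trans (add_le_add le_rfl ?_)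
    have q1 : ‖(z - θ) * (z - θ)‖ ≤ (1 / 10) * (1 / 10) := by
      rw [norm_mul]; exact mul_le_mul hz.le hz.le (norm_nonneg _) (by norm_num)
    have q2 : ‖(z - θ) * (τ - θ)‖ ≤ (1 / 10) * (1 / 10) := by
      rw [norm_mul]; exact mul_le_mul hz.le hτ.le (norm_nonneg _) (by norm_num)
    have q3 : ‖(τ - θ) * (τ - θ)‖ ≤ (1 / 10) * (1 / 10) := by
      rw [norm_mul]; exact mul_le_mul hτ.le hτ.le (norm_nonneg _) (by norm_num)
    have q4 : ‖((3 * θ : ℝ) : ℂ) * (z - θ)‖ ≤ 3 * θ * (1 / 10) := by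
      rw [norm_mul, Complex.norm_real, Real.norm_eq_abs, abs_of_pos (by linarith)]
      exact mul_le_mul_of_nonneg_left hz.le (by linarith)
    have q5 : ‖((3 * θ : ℝ) : ℂ) * (τ - θ)‖ ≤ 3 * θ * (1 / 10) := by
      rw [norm_mul, Complex.norm_real, Real.norm_eq_abs, abs_of_pos (by linarith)]
      exact mul_le_mul_of_nonneg_left hτ.le (by linarith)
    have n1 := norm_add_le ((z - θ) * (z - θ)) ((z - θ) * (τ - θ))
    have n2 := norm_add_le ((z - θ) * (z - θ) + (z - θ) * (τ - θ)) ((τ - θ) * (τ - θ))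
    have n3 := norm_add_le ((z - θ) * (z - θ) + (z - θ) * (τ - θ) + (τ - θ) * (τ - θ)) (((3 * θ : ℝ) : ℂ) * (z - θ))
    have n4 := norm_add_le ((z - θ) * (z - θ) + (z - θ) * (τ - θ) + (τ - θ) * (τ - θ) + ((3 * θ : ℝ) : ℂ) * (z - θ))
      (((3 * θ : ℝ) : ℂ) * (τ - θ))
    linarith
  nlinarith

theorem hRt : StRt := by
  intro θ hθ δ hδ
  have t1 := th_lo hθ
  have t2 := th_hi hθ
  set d : ℝ := min δ (1 / 10) with hd
  have d0 : 0 < d := lt_min hδ (by norm_num)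
  have d1 : d ≤ 1 / 10 := min_le_right _ _
  have dδ : d ≤ δ := min_le_left _ _
  -- limits
  have L1 : Tendsto (fun m : ℕ => ((m : ℝ) + 4) * (5 / 6 : ℝ) ^ m) atTop (𝓝 0) := by
    have h1 := tendsto_self_mul_const_pow_of_lt_one (r := (5 / 6 : ℝ)) (by norm_num) (by norm_num)
    have h2 := (tendsto_pow_atTop_nhds_zero_of_lt_one (r := (5 / 6 : ℝ)) (by norm_num) (by norm_num)).const_mul 4
    have h3 := h1.add h2
    simp only [mul_zero, add_zero] at h3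
    refine h3.congr fun m => ?_
    ring
  have ev1 : ∀ᶠ m : ℕ in atTop, ((m : ℝ) + 4) * (5 / 6 : ℝ) ^ m < 1 := (tendsto_order.1 L1).2 _ one_pos
  have L2 : Tendsto (fun n : ℕ => (n : ℝ) * (5 / 6 : ℝ) ^ n) atTop (𝓝 0) :=
    tendsto_self_mul_const_pow_of_lt_one (by norm_num) (by norm_num)
  have ev2 : ∀ᶠ n : ℕ in atTop, (n : ℝ) * (5 / 6 : ℝ) ^ n < 1 / 10 := (tendsto_order.1 L2).2 _ (by norm_num)
  have L3 : Tendsto (fun n : ℕ => (θ - d) ^ n) atTop atTop := tendsto_pow_atTop_atTop_of_one_lt (by linarith)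
  have hPd : (θ - d) ^ 3 - (θ - d) - 1 < 0 := by
    have e : (θ - d) ^ 3 - (θ - d) - 1 = -(d * (3 * θ ^ 2 - 1 - 3 * θ * d + d ^ 2)) := by
      linear_combination hθ
    rw [e]
    have : 0 < 3 * θ ^ 2 - 1 - 3 * θ * d + d ^ 2 := by nlinarith
    have := mul_pos d0 this
    linarith
  have ev3 : ∀ᶠ n : ℕ in atTop, 5 / (-((θ - d) ^ 3 - (θ - d) - 1)) < (θ - d) ^ n := L3.eventually_gt_atTop _
  obtain ⟨N1, hN1⟩ := eventually_atTop.1 ev1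
  obtain ⟨N2, hN2⟩ := eventually_atTop.1 ev2
  obtain ⟨N3, hN3⟩ := eventually_atTop.1 ev3
  refine ⟨N1 + N2 + N3 + 105, fun n hn => ?_⟩
  -- existence
  have hcont : ContinuousOn (fun x : ℝ => x ^ n * (x ^ 3 - x - 1) + (x ^ 3 + x ^ 2 - 1)) (Icc (θ - d) (θ + d)) := by
    fun_prop
  have hlow : (θ - d) ^ n * ((θ - d) ^ 3 - (θ - d) - 1) + ((θ - d) ^ 3 + (θ - d) ^ 2 - 1) < 0 := by
    have h3 := hN3 n (by omega)
    rw [div_lt_iff₀ (by linarith)] at h3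
    have h4 : (θ - d) ^ 3 + (θ - d) ^ 2 - 1 < 5 := by
      have a1 : θ - d < 7 / 5 := by linarith
      have a2 : 0 < θ - d := by linarith
      have a3 : (θ - d) ^ 2 ≤ (7 / 5) ^ 2 := pow_le_pow_left₀ a2.le a1.le 2
      have a4 : (θ - d) ^ 3 ≤ (7 / 5) ^ 3 := pow_le_pow_left₀ a2.le a1.le 3
      norm_num at a3 a4 ⊢
      linarith
    linarith
  have hhigh : 0 < (θ + d) ^ n * ((θ + d) ^ 3 - (θ + d) - 1) + ((θ + d) ^ 3 + (θ + d) ^ 2 - 1) := by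
    have e : (θ + d) ^ 3 - (θ + d) - 1 = d * (3 * θ ^ 2 - 1 + 3 * θ * d + d ^ 2) := by
      linear_combination hθ
    have h3 : 0 < 3 * θ ^ 2 - 1 + 3 * θ * d + d ^ 2 := by
      have : 0 < 3 * θ * d := by positivity
      nlinarith
    have h4 : 0 < (θ + d) ^ n * ((θ + d) ^ 3 - (θ + d) - 1) := by
      rw [e]
      exact mul_pos (pow_pos (by linarith) _) (mul_pos d0 h3)
    have h5 : 1 < (θ + d) ^ 3 := one_lt_pow₀ (by linarith) (by norm_num)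
    have h6 : 0 < (θ + d) ^ 2 := pow_pos (by linarith) _
    linarith
  obtain ⟨τ, hτ, hτ0⟩ := intermediate_value_Ioo (by linarith) hcont ⟨hlow, hhigh⟩
  simp only at hτ0
  have a1 : |τ - θ| < d := abs_lt.2 ⟨by linarith [hτ.1], by linarith [hτ.2]⟩
  have a2 : 6 / 5 < τ := by linarith [hτ.1]
  have a3 : τ < 3 / 2 := by linarith [hτ.2]
  refine ⟨τ, ?_, lt_of_lt_of_le a1 dδ, by linarith, a3, ?_, ?_, ?_⟩
  · rintro rfl
    rw [hθ, mul_zero, zero_add] at hτ0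
    nlinarith
  · rw [fn_aeval]; exact hτ0
  · -- simple root
    rw [fn_der]
    intro h
    have hn1 : 1 ≤ n := by omega
    have e1 : τ ^ n = τ ^ (n - 1) * τ := by
      rw [← pow_succ]; congr 1; omega
    have hb := hN2 n (by omega)
    have hp : (5 / 6 : ℝ) ^ n * (6 / 5) ^ n = 1 := by
      rw [← mul_pow]; norm_num
    have hp2 : (6 / 5 : ℝ) ^ n ≤ τ ^ n := pow_le_pow_left₀ (by norm_num) a2.le n
    have hp3 : 0 < (6 / 5 : ℝ) ^ n := by positivity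
    have hn2 : 10 * (n : ℝ) < τ ^ n := by
      have h1 : (n : ℝ) * ((5 / 6 : ℝ) ^ n * (6 / 5) ^ n) < 1 / 10 * (6 / 5) ^ n := by
        have := mul_lt_mul_of_pos_right hb hp3
        linarith
      rw [hp, mul_one] at h1
      linarith
    have e2 : τ * (n * τ ^ (n - 1) * (τ ^ 3 - τ - 1)) = -(n * (τ ^ 3 + τ ^ 2 - 1)) := by
      have : τ * (n * τ ^ (n - 1) * (τ ^ 3 - τ - 1)) = n * (τ ^ n * (τ ^ 3 - τ - 1)) := by
        rw [e1]; ring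
      rw [this]
      linear_combination (n : ℝ) * hτ0
    have e3 : τ * (τ ^ n * (3 * τ ^ 2 - 1) + (3 * τ ^ 2 + 2 * τ)) = n * (τ ^ 3 + τ ^ 2 - 1) := by
      linear_combination τ * h - e2
    have b1 : τ ^ 3 + τ ^ 2 - 1 ≤ 5 := by
      have a4 : τ ^ 2 ≤ (3 / 2) ^ 2 := pow_le_pow_left₀ (by linarith) a3.le 2
      have a5 : τ ^ 3 ≤ (3 / 2) ^ 3 := pow_le_pow_left₀ (by linarith) a3.le 3
      norm_num at a4 a5 ⊢
      linarith
    have b2 : 3 ≤ 3 * τ ^ 2 - 1 := by nlinarith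
    have hn0 : (0 : ℝ) ≤ n := Nat.cast_nonneg n
    have b3 : (n : ℝ) * (τ ^ 3 + τ ^ 2 - 1) ≤ n * 5 := mul_le_mul_of_nonneg_left b1 hn0
    have b4 : τ ^ n * 3 ≤ τ ^ n * (3 * τ ^ 2 - 1) := mul_le_mul_of_nonneg_left b2 (by positivity)
    have b5 : 0 < 3 * τ ^ 2 + 2 * τ := by positivity
    have b6 : 0 < τ ^ n * (3 * τ ^ 2 - 1) + (3 * τ ^ 2 + 2 * τ) := by
      have : 0 < τ ^ n * 3 := by positivity
      linarith
    have b7 : 1 * (τ ^ n * (3 * τ ^ 2 - 1) + (3 * τ ^ 2 + 2 * τ)) ≤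
        τ * (τ ^ n * (3 * τ ^ 2 - 1) + (3 * τ ^ 2 + 2 * τ)) :=
      mul_le_mul_of_nonneg_right (by linarith) b6.le
    linarith
  · -- the other roots
    intro z hz hne
    by_contra hc
    push Not at hc
    rw [fn_aeval] at hz
    have hz1 := root_near hθ n (by omega) z hc hz
    obtain ⟨m, rfl⟩ : ∃ m, n = m + 4 := ⟨n - 4, by omega⟩
    have hτc : ((τ : ℂ)) ^ (m + 4) * ((τ : ℂ) ^ 3 - τ - 1) + ((τ : ℂ) ^ 3 + (τ : ℂ) ^ 2 - 1) = 0 := by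
      exact_mod_cast hτ0
    have hτ1 : ‖(τ : ℂ) - θ‖ < 1 / 10 := by
      rw [← Complex.ofReal_sub, Complex.norm_real, Real.norm_eq_abs]
      exact lt_of_lt_of_le a1 d1
    exact hne (two_roots hθ m (hN1 m (by omega)) z τ hz1 hτ1 hz hτc)

end Pool.Agent.Helper54.SL
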